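import Pool.Agent.Q66.SH.Stm

/-!
# Job SH-LOW: lower bound for sums of block diagonal operators
-/

set_option autoImplicit false

open Filter Topology
open scoped ENNReal

namespace Pool.Agent.Q39.SH

open Pool.Agent.Q66.SH

section
variable {H : Type} [NormedAddCommGroup H] [InnerProductSpace ℂ H] [CompleteSpace H]

theorem brn_le_apx (hB : S_BA) (T : H →L[ℂ] H) (n : ℕ) : brn n T ≤ apx n T :=
  iSup_le fun t => iSup_le fun ht => hB H T n t ht

theorem apx_ne_top (hA : S_APB) (T : H →L[ℂ] H) (n : ℕ) : apx n T ≠ ∞ := by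
  obtain ⟨hid, h0, hanti, hz⟩ := hA H
  refine ne_top_of_le_ne_top ?_ (hanti T (Nat.zero_le n))
  simp only [h0]
  exact enorm_ne_top

end

theorem t_LOW (hL : S_BLL) (hY : S_LAY) (hC : S_LOWC) (hB : S_BA) (hN : S_NIN) (hA : S_APB) :
    S_LOW := by
  intro H _ _ _ p hp hinf
  have hr : 0 < p.toReal := ENNReal.toReal_pos hp hinf
  have hr' : 0 < 1 / p.toReal := by positivity
  have hNp : ∀ T : H →L[ℂ] H, N p T = pw p.toReal T ^ (1 / p.toReal) := fun T => by
    simp [N, hinf]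
  have hcancel : ∀ x : ℝ≥0∞, (x ^ (1 / p.toReal)) ^ p.toReal = x := by
    intro x
    rw [one_div]
    exact ENNReal.rpow_inv_rpow hr.ne' x
  set r : ℝ := p.toReal with hrdef
  set e : ℝ≥0∞ := ENNReal.ofReal (2 ^ (-(r + 2))) with he
  set a : ℝ≥0∞ := ENNReal.ofReal (2 ^ (r + 1)) with ha
  have he0 : e ≠ 0 := by
    rw [he]
    exact (ENNReal.ofReal_pos.mpr (by positivity)).ne'
  have het : e ≠ ∞ := ENNReal.ofReal_ne_top
  have ha0 : a ≠ 0 := by
    rw [ha]
    exact (ENNReal.ofReal_pos.mpr (by positivity)).ne'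
  have hat : a ≠ ∞ := ENNReal.ofReal_ne_top
  have hae : a * (e + e) = 1 := by
    rw [ha, he, ← ENNReal.ofReal_add (by positivity) (by positivity),
      ← ENNReal.ofReal_mul (by positivity)]
    have : (2 : ℝ) ^ (r + 1) * (2 ^ (-(r + 2)) + 2 ^ (-(r + 2))) = 1 := by
      have h1 : (2 : ℝ) ^ (-(r + 2)) + 2 ^ (-(r + 2)) = 2 ^ (-(r + 1)) := by
        have : (2 : ℝ) ^ (-(r + 1)) = 2 ^ (-(r + 2)) * 2 ^ (1 : ℝ) := by
          rw [← Real.rpow_add (by norm_num)]
          congr 1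
          ring
        rw [this, Real.rpow_one]
        ring
      rw [h1, ← Real.rpow_add (by norm_num)]
      simp
    rw [this, ENNReal.ofReal_one]
  refine ⟨e ^ (1 / r), e ^ (1 / r), ?_, ?_, ?_⟩
  · exact (ENNReal.rpow_pos (pos_iff_ne_zero.mpr he0) het).ne'
  · exact (ENNReal.rpow_pos (pos_iff_ne_zero.mpr he0) het).ne'
  intro Q hQ C D E n hD hCD hCn hE
  have key : ∀ j < n, e ≤ ∑' m, brn m (D j) ^ r := by
    intro j hj
    by_contra hlt
    push Not at hlt
    obtain ⟨s, hs, hs2⟩ := hCn j hj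
    have h1 : N p (C j) = 1 := by
      have := ((hN H p hp (C j)).2 1 (hCn j hj)).1
      rw [this, ENNReal.ofReal_one]
    have h2 : pw r (C j) = 1 := by
      have h3 : (pw r (C j) ^ (1 / r)) ^ r = 1 := by
        rw [← hNp, h1, ENNReal.one_rpow]
      rwa [hcancel] at h3
    have h4 : pw r (E j) ≤ e := by
      have h5 : (pw r (E j) ^ (1 / r)) ^ r ≤ (e ^ (1 / r)) ^ r := by
        refine ENNReal.rpow_le_rpow ?_ hr.le
        rw [← hNp]
        exact hE j hj
      rwa [hcancel, hcancel] at h5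
    have h6 := hC H r hr (C j) (D j) (E j) s hs (hCD j hj)
    rw [h2] at h6
    have h7 : a * (∑' m, brn m (D j) ^ r + pw r (E j)) < a * (e + e) := by
      refine (ENNReal.mul_lt_mul_iff_right ha0 hat).mpr ?_
      calc ∑' m, brn m (D j) ^ r + pw r (E j) ≤ ∑' m, brn m (D j) ^ r + e := by gcongr
        _ < e + e := (ENNReal.add_lt_add_iff_right het).mpr hlt
    rw [hae] at h7
    exact absurd h6 (not_le.mpr h7)
  have h8 := (hY r hr n (fun i => apx i (∑ j ∈ Finset.range n, D j)) (fun j i => brn i (D j))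
    (fun i => apx_ne_top hA _ i)
    (fun j i => ne_top_of_le_ne_top (apx_ne_top hA (D j) i) (brn_le_apx hB (D j) i))).2
    (fun t ht => hL H Q hQ D n hD t ht)
  have h9 : (n : ℝ≥0∞) * e ≤ pw r (∑ j ∈ Finset.range n, D j) := by
    refine le_trans ?_ h8
    calc (n : ℝ≥0∞) * e = ∑ j ∈ Finset.range n, e := by simp
      _ ≤ _ := Finset.sum_le_sum fun j hj => key j (Finset.mem_range.mp hj)
  rw [hNp, ENNReal.toReal_inv, ← hrdef, ← one_div]
  calc e ^ (1 / r) * (n : ℝ≥0∞) ^ (1 / r) = ((n : ℝ≥0∞) * e) ^ (1 / r) := by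
        rw [ENNReal.mul_rpow_of_nonneg _ _ hr'.le, mul_comm]
    _ ≤ _ := ENNReal.rpow_le_rpow h9 hr'.le

end Pool.Agent.Q39.SH
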