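import Pool.Agent.Q66.SH.Stm

/-!
# Job SH-QN: `N p` is a quasi-norm
-/

set_option autoImplicit false

open Filter Topology
open scoped ENNReal

namespace Pool.Agent.Q39.SH

open Pool.Agent.Q66.SH

theorem add_rpow_le {r : ℝ} (hr : 0 ≤ r) (x y : ℝ≥0∞) :
    (x + y) ^ r ≤ 2 ^ r * (x ^ r + y ^ r) := by
  have h1 : x + y ≤ 2 * max x y := by
    rw [two_mul]
    exact add_le_add (le_max_left _ _) (le_max_right _ _)
  calc (x + y) ^ r ≤ (2 * max x y) ^ r := ENNReal.rpow_le_rpow h1 hr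
    _ = 2 ^ r * (max x y) ^ r := ENNReal.mul_rpow_of_nonneg _ _ hr
    _ ≤ 2 ^ r * (x ^ r + y ^ r) := by
        refine mul_le_mul_right ?_ _
        rcases le_total x y with h | h
        · rw [max_eq_right h]; exact le_add_self
        · rw [max_eq_left h]; exact le_self_add

theorem tsum_two (f : ℕ → ℝ≥0∞) (hf : Antitone f) : ∑' n, f n ≤ 2 * ∑' m, f (m + m) := by
  rw [← tsum_even_add_odd ENNReal.summable ENNReal.summable, two_mul]
  refine add_le_add (ENNReal.tsum_le_tsum fun m => ?_) (ENNReal.tsum_le_tsum fun m => ?_)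
  · exact hf (by omega)
  · exact hf (by omega)

section
variable {H : Type} [NormedAddCommGroup H] [InnerProductSpace ℂ H] [CompleteSpace H]

theorem pw_add (hW : S_WEYL) (hA : S_APB) {r : ℝ} (hr : 0 < r) (S T : H →L[ℂ] H) :
    pw r (S + T) ≤ (2 * 2 ^ r) * (pw r S + pw r T) := by
  obtain ⟨-, -, hanti, -⟩ := hA H
  have h1 : Antitone (fun n => apx n (S + T) ^ r) := fun m n hmn =>
    ENNReal.rpow_le_rpow (hanti (S + T) hmn) hr.le
  calc pw r (S + T) ≤ 2 * ∑' m, apx (m + m) (S + T) ^ r := tsum_two _ h1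
    _ ≤ 2 * ∑' m, (2 ^ r * (apx m S ^ r + apx m T ^ r)) := by
        refine mul_le_mul_right (ENNReal.tsum_le_tsum fun m => ?_) _
        exact (ENNReal.rpow_le_rpow (hW H m m S T) hr.le).trans (add_rpow_le hr.le _ _)
    _ = (2 * 2 ^ r) * (pw r S + pw r T) := by
        rw [ENNReal.tsum_mul_left, ENNReal.tsum_add, mul_assoc]
        rfl

end

theorem t_QN (hW : S_WEYL) (hA : S_APB) : S_QN := by
  intro H _ _ _ p hp
  obtain ⟨hid, h0, hanti, hz⟩ := hA H
  by_cases hinf : p = ∞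
  · subst hinf
    have hN : ∀ T : H →L[ℂ] H, N ∞ T = ‖T‖ₑ := fun T => by simp [N]
    refine ⟨1, fun _ => 1, ⟨le_refl _, ENNReal.one_ne_top, fun _ => ENNReal.one_ne_top, ?_, ?_, ?_, ?_⟩⟩
    · intro S T
      rw [hN, hN, hN, one_mul]
      exact enorm_add_le _ _
    · intro A S B hA1 hB1
      rw [hN, hN, ← h0, ← h0]
      exact hid 0 A S B hA1 hB1
    · intro T
      rw [hN]
    · intro k T _
      rw [hN, one_mul]
  · have hr : 0 < p.toReal := ENNReal.toReal_pos hp hinf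
    have hr' : 0 < 1 / p.toReal := by positivity
    have hN : ∀ T : H →L[ℂ] H, N p T = pw p.toReal T ^ (1 / p.toReal) := fun T => by
      simp [N, hinf]
    have hcancel : ∀ x : ℝ≥0∞, (x ^ p.toReal) ^ (1 / p.toReal) = x := by
      intro x
      rw [one_div]
      exact ENNReal.rpow_rpow_inv hr.ne' x
    have h2 : (1 : ℝ≥0∞) ≤ 2 := by norm_num
    have h2t : (2 : ℝ≥0∞) ≠ ∞ := ENNReal.ofNat_ne_top
    refine ⟨(2 * 2 ^ p.toReal) ^ (1 / p.toReal) * 2 ^ (1 / p.toReal),
      fun k => (k : ℝ≥0∞) ^ (1 / p.toReal), ⟨?_, ?_, ?_, ?_, ?_, ?_, ?_⟩⟩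
    · refine one_le_mul ?_ ?_
      · refine ENNReal.one_le_rpow (one_le_mul h2 (ENNReal.one_le_rpow h2 hr)) hr'
      · exact ENNReal.one_le_rpow h2 hr'
    · refine ENNReal.mul_ne_top (ENNReal.rpow_ne_top_of_nonneg hr'.le
        (ENNReal.mul_ne_top h2t (ENNReal.rpow_ne_top_of_nonneg hr.le h2t)))
        (ENNReal.rpow_ne_top_of_nonneg hr'.le h2t)
    · intro k
      exact ENNReal.rpow_ne_top_of_nonneg hr'.le (ENNReal.natCast_ne_top k)
    · intro S T
      rw [hN, hN, hN]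
      calc pw p.toReal (S + T) ^ (1 / p.toReal)
          ≤ ((2 * 2 ^ p.toReal) * (pw p.toReal S + pw p.toReal T)) ^ (1 / p.toReal) :=
            ENNReal.rpow_le_rpow (pw_add hW hA hr S T) hr'.le
        _ = (2 * 2 ^ p.toReal) ^ (1 / p.toReal) *
            (pw p.toReal S + pw p.toReal T) ^ (1 / p.toReal) :=
            ENNReal.mul_rpow_of_nonneg _ _ hr'.le
        _ ≤ (2 * 2 ^ p.toReal) ^ (1 / p.toReal) * (2 ^ (1 / p.toReal) *
            (pw p.toReal S ^ (1 / p.toReal) + pw p.toReal T ^ (1 / p.toReal))) :=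
            mul_le_mul_right (add_rpow_le hr'.le _ _) _
        _ = _ := by rw [mul_assoc]
    · intro A S B hA1 hB1
      rw [hN, hN]
      refine ENNReal.rpow_le_rpow (ENNReal.tsum_le_tsum fun n => ?_) hr'.le
      exact ENNReal.rpow_le_rpow (hid n A S B hA1 hB1) hr.le
    · intro T
      rw [hN]
      calc ‖T‖ₑ = (apx 0 T ^ p.toReal) ^ (1 / p.toReal) := by rw [hcancel, h0]
        _ ≤ _ := ENNReal.rpow_le_rpow (ENNReal.le_tsum (f := fun n => apx n T ^ p.toReal) 0) hr'.le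
    · intro k T hk
      rw [hN]
      have h3 : pw p.toReal T ≤ (k : ℝ≥0∞) * ‖T‖ₑ ^ p.toReal := by
        unfold pw
        rw [tsum_eq_sum (s := Finset.range k)]
        · calc ∑ n ∈ Finset.range k, apx n T ^ p.toReal
              ≤ ∑ n ∈ Finset.range k, ‖T‖ₑ ^ p.toReal := by
                refine Finset.sum_le_sum fun n _ => ENNReal.rpow_le_rpow ?_ hr.le
                rw [← h0]
                exact hanti T (Nat.zero_le n)
            _ = _ := by simp
        · intro n hn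
          rw [Finset.mem_range, not_lt] at hn
          rw [hz T k n hk hn, ENNReal.zero_rpow_of_pos hr]
      calc pw p.toReal T ^ (1 / p.toReal) ≤ ((k : ℝ≥0∞) * ‖T‖ₑ ^ p.toReal) ^ (1 / p.toReal) :=
            ENNReal.rpow_le_rpow h3 hr'.le
        _ = _ := by rw [ENNReal.mul_rpow_of_nonneg _ _ hr'.le, hcancel]

end Pool.Agent.Q39.SH
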