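import Pool.Agent.Q66.SH.Stm

/-!
# Jobs SH-ST1 and SH-ST2: small blocks
-/

set_option autoImplicit false

open Filter Topology
open scoped ENNReal

namespace Pool.Agent.Q39.SH

open Pool.Agent.Q66.SH

theorem nq_one (q : ℝ≥0∞) (M : ℕ) : nq q (fun _ => (1 : ℝ)) M = (M : ℝ) ^ (1 / q.toReal) := by
  unfold nq
  split_ifs with h
  · subst h
    simp
  · simp

section
variable {H : Type} [NormedAddCommGroup H] [InnerProductSpace ℂ H] [CompleteSpace H]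

theorem norm_le_of_InS (hN : S_NIN) (hQ : S_QN) {p : ℝ≥0∞} (hp : p ≠ 0) {T : H →L[ℂ] H} {r : ℝ}
    (h : InS p T r) : ‖T‖ ≤ r := by
  obtain ⟨h1, h2⟩ := (hN H p hp T).2 r h
  obtain ⟨K, R, hq⟩ := hQ H p hp
  have h3 : ‖T‖ₑ ≤ ENNReal.ofReal r := by
    rw [← h1]
    exact hq.op T
  rw [← ofReal_norm] at h3
  exact (ENNReal.ofReal_le_ofReal_iff h2).mp h3

theorem signs_InS {q p : ℝ≥0∞} {A : ℕ → (H →L[ℂ] H)} (hT : Test q p A) (m M : ℕ) (hM : 1 ≤ M)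
    (ε : ℕ → ℝ) (hε : ∀ i, ε i = 1 ∨ ε i = -1) :
    InS p (∑ i ∈ Finset.range M, (ε i : ℂ) • A (m + i)) ((M : ℝ) ^ (1 / q.toReal)) := by
  have h := hT M (fun i => m + i) ε (fun _ => 1) hM (fun i _ j _ hij => by simpa using hij) hε
    (fun _ _ _ _ => le_refl _) (fun _ _ => zero_le_one)
  rw [nq_one] at h
  simpa using h

theorem single_InS {q p : ℝ≥0∞} {A : ℕ → (H →L[ℂ] H)} (hT : Test q p A) (n : ℕ) :
    InS p (A n) 1 := by
  have h := signs_InS hT n 1 le_rfl (fun _ => 1) (fun _ => Or.inl rfl)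
  simpa using h

theorem hs_le (hE : S_PE) (hN : S_NIN) (hQ : S_QN) (b : HilbertBasis ℕ ℂ H) {q p : ℝ≥0∞}
    (hp : p ≠ 0) {A : ℕ → (H →L[ℂ] H)} (hT : Test q p A) (k n : ℕ) :
    hs b k (A n) ≤ 2 * k := by
  have h1 : ‖A n‖ ≤ 1 := norm_le_of_InS hN hQ hp (single_InS hT n)
  have h2 := (hE H b k (A n)).2.2
  have h3 : ‖A n‖ ^ 2 ≤ 1 := pow_le_one₀ (norm_nonneg _) h1
  have h4 : (0 : ℝ) ≤ 2 * k := by positivity
  calc hs b k (A n) ≤ 2 * k * ‖A n‖ ^ 2 := h2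
    _ ≤ 2 * k * 1 := mul_le_mul_of_nonneg_left h3 h4
    _ = 2 * k := mul_one _

end

theorem t_ST1 (hS : S_SGN) (hE : S_PE) (hN : S_NIN) (hQ : S_QN) : S_ST1 := by
  intro H _ _ _ b q p hq hp hq2 A hT k δ hδ m M₀
  have hqt : q ≠ ∞ := ne_top_of_lt hq2
  have hr : 0 < q.toReal := ENNReal.toReal_pos hq hqt
  have hr2 : q.toReal < 2 := by
    have := (ENNReal.toReal_lt_toReal hqt (by norm_num)).mpr hq2
    simpa using this
  have hexp : 0 < 2 / q.toReal - 1 := by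
    rw [sub_pos, lt_div_iff₀ hr]
    linarith
  have htend : Tendsto (fun M : ℕ => 2 * (k : ℝ) * (M : ℝ) ^ (-(2 / q.toReal - 1))) atTop (𝓝 0) := by
    have h1 := ((tendsto_rpow_neg_atTop hexp).comp tendsto_natCast_atTop_atTop).const_mul
      (2 * (k : ℝ))
    simpa using h1
  have hev : ∀ᶠ M : ℕ in atTop, 2 * (k : ℝ) * (M : ℝ) ^ (-(2 / q.toReal - 1)) < δ ^ 2 :=
    htend.eventually_lt_const (by positivity)
  obtain ⟨M, hM1, hM2⟩ := (hev.and (eventually_ge_atTop (max M₀ 1))).exists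
  have hMM : M₀ ≤ M := (le_max_left _ _).trans hM2
  have hM : 1 ≤ M := (le_max_right _ _).trans hM2
  refine ⟨M, hMM, hM, ?_⟩
  obtain ⟨ε, hε, hle⟩ := (hS H b k M (fun i => A (m + i))).1
  refine ⟨ε, hε, ?_⟩
  have hMpos : (0 : ℝ) < M := by exact_mod_cast hM
  set c : ℝ := (M : ℝ) ^ (-(1 / q.toReal)) with hc
  have hcpos : 0 < c := Real.rpow_pos_of_pos hMpos _
  have hcM : c ^ 2 * M = (M : ℝ) ^ (-(2 / q.toReal - 1)) := by
    rw [hc, ← Real.rpow_natCast, ← Real.rpow_mul hMpos.le]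
    nth_rewrite 2 [← Real.rpow_one (M : ℝ)]
    rw [← Real.rpow_add hMpos]
    congr 1
    push_cast
    ring
  have hY : (∑ i ∈ Finset.range M, ((ε i * c : ℝ) : ℂ) • A (m + i)) =
      (c : ℂ) • ∑ i ∈ Finset.range M, (ε i : ℂ) • A (m + i) := by
    rw [Finset.smul_sum]
    refine Finset.sum_congr rfl fun i _ => ?_
    rw [smul_smul]
    congr 1
    push_cast
    ring
  rw [hY]
  set Z := ∑ i ∈ Finset.range M, (ε i : ℂ) • A (m + i) with hZ
  have hhs : hs b k Z ≤ 2 * k * M := by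
    refine hle.trans ?_
    calc ∑ j ∈ Finset.range M, hs b k (A (m + j)) ≤ ∑ j ∈ Finset.range M, (2 * k : ℝ) :=
          Finset.sum_le_sum fun j _ => hs_le hE hN hQ b hp hT k (m + j)
      _ = 2 * k * M := by
        rw [Finset.sum_const, Finset.card_range, nsmul_eq_mul]
        ring
  have hfin : c ^ 2 * hs b k Z ≤ δ ^ 2 := by
    calc c ^ 2 * hs b k Z ≤ c ^ 2 * (2 * k * M) := mul_le_mul_of_nonneg_left hhs (by positivity)
      _ = 2 * k * (c ^ 2 * M) := by ring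
      _ ≤ δ ^ 2 := by
        rw [hcM]
        exact hM1.le
  have hfin2 : ∀ W : H →L[ℂ] H, ‖W‖ ^ 2 ≤ hs b k Z → ‖(c : ℂ) • W‖ ≤ δ := by
    intro W hW
    refine le_of_sq_le_sq ?_ hδ.le
    rw [norm_smul, mul_pow, Complex.norm_real, Real.norm_eq_abs, sq_abs]
    exact (mul_le_mul_of_nonneg_left hW (by positivity)).trans hfin
  obtain ⟨h1, h2, -⟩ := hE H b k Z
  constructor
  · rw [smul_mul_assoc]
    exact hfin2 _ h1
  · rw [mul_smul_comm]
    exact hfin2 _ h2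

theorem t_ST2 (hS : S_SGN) (hE : S_PE) (hN : S_NIN) (hQ : S_QN) : S_ST2 := by
  intro H _ _ _ b q p hp hq2 A hT k δ hδ m
  by_contra hcon
  push Not at hcon
  have hbig : ∀ n, m ≤ n → δ ^ 2 ≤ hs b k (A n) := by
    intro n hn
    by_contra hlt
    push Not at hlt
    obtain ⟨h1, h2, -⟩ := hE H b k (A n)
    have h3 : ‖A n * P b k‖ ≤ δ := le_of_sq_le_sq (h1.trans hlt.le) hδ.le
    have h4 : ‖P b k * A n‖ ≤ δ := le_of_sq_le_sq (h2.trans hlt.le) hδ.le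
    exact absurd h4 (not_le.mpr (hcon n hn h3))
  have hexp : 0 < 1 - 2 * (1 / q.toReal) := by
    by_cases hqt : q = ∞
    · subst hqt
      simp
    · have hr2 : 2 < q.toReal := by
        have := (ENNReal.toReal_lt_toReal (by norm_num) hqt).mpr hq2
        simpa using this
      have h5 : 1 / q.toReal < 1 / 2 := one_div_lt_one_div_of_lt (by norm_num) hr2
      linarith
  have htend : Tendsto (fun M : ℕ => (M : ℝ) ^ (1 - 2 * (1 / q.toReal))) atTop atTop :=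
    (tendsto_rpow_atTop hexp).comp tendsto_natCast_atTop_atTop
  obtain ⟨M, hM1, hM⟩ := ((htend.eventually_gt_atTop (2 * k / δ ^ 2)).and
    (eventually_ge_atTop 1)).exists
  have hMpos : (0 : ℝ) < M := by exact_mod_cast hM
  obtain ⟨ε, hε, hle⟩ := (hS H b k M (fun i => A (m + i))).2
  set X := ∑ i ∈ Finset.range M, (ε i : ℂ) • A (m + i) with hX
  have hXn : ‖X‖ ≤ (M : ℝ) ^ (1 / q.toReal) := norm_le_of_InS hN hQ hp (signs_InS hT m M hM ε hε)
  have h1 : M * δ ^ 2 ≤ 2 * k * (M : ℝ) ^ (2 * (1 / q.toReal)) := by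
    calc M * δ ^ 2 = ∑ j ∈ Finset.range M, δ ^ 2 := by
          rw [Finset.sum_const, Finset.card_range, nsmul_eq_mul]
      _ ≤ ∑ j ∈ Finset.range M, hs b k (A (m + j)) :=
          Finset.sum_le_sum fun j _ => hbig (m + j) (Nat.le_add_right m j)
      _ ≤ hs b k X := hle
      _ ≤ 2 * k * ‖X‖ ^ 2 := (hE H b k X).2.2
      _ ≤ 2 * k * ((M : ℝ) ^ (1 / q.toReal)) ^ 2 := by gcongr
      _ = 2 * k * (M : ℝ) ^ (2 * (1 / q.toReal)) := by
          rw [← Real.rpow_natCast, ← Real.rpow_mul hMpos.le]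
          congr 2
          push_cast
          ring
  have h2 : (M : ℝ) = (M : ℝ) ^ (1 - 2 * (1 / q.toReal)) * (M : ℝ) ^ (2 * (1 / q.toReal)) := by
    rw [← Real.rpow_add hMpos]
    simp
  have h3 : 0 < (M : ℝ) ^ (2 * (1 / q.toReal)) := Real.rpow_pos_of_pos hMpos _
  have h4 : 2 * k < (M : ℝ) ^ (1 - 2 * (1 / q.toReal)) * δ ^ 2 := by
    rwa [div_lt_iff₀ (by positivity)] at hM1
  have h5 : 2 * k * (M : ℝ) ^ (2 * (1 / q.toReal)) < M * δ ^ 2 := by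
    calc 2 * k * (M : ℝ) ^ (2 * (1 / q.toReal))
        < ((M : ℝ) ^ (1 - 2 * (1 / q.toReal)) * δ ^ 2) * (M : ℝ) ^ (2 * (1 / q.toReal)) :=
          mul_lt_mul_of_pos_right h4 h3
      _ = ((M : ℝ) ^ (1 - 2 * (1 / q.toReal)) * (M : ℝ) ^ (2 * (1 / q.toReal))) * δ ^ 2 := by ring
      _ = M * δ ^ 2 := by rw [← h2]
  linarith

end Pool.Agent.Q39.SH
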